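import Pool.Agent.helper53.DC.SpecA

set_option autoImplicit false

namespace Pool.Agent.helper64.DC

open Pool.Agent.helper53.DC

theorem A20 : A20_stmt := by
  intro B W _ _ M cs H hH
  have := hH
  have : Finite (W ⧸ H) := Subgroup.finite_quotient_of_finiteIndex
  let f : (W ⧸ H) × B → Lab cs H := fun p => lab cs H (p.1.out⁻¹ • wall cs 1 p.2)
  refine Finite.of_surjective f ?_
  intro l
  obtain ⟨r, rfl⟩ : ∃ r, lab cs H r = l := Quotient.exists_rep l
  obtain ⟨g, i, hr⟩ := r.2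
  obtain ⟨h, hh⟩ := QuotientGroup.mk_out_eq_mul H g⁻¹
  refine ⟨((g⁻¹ : W), i), ?_⟩
  show lab cs H (((g⁻¹ : W) : W ⧸ H).out⁻¹ • wall cs 1 i) = lab cs H r
  rw [hh, lab_eq]
  refine ⟨h, h.2, ?_⟩
  apply Subtype.ext
  rw [smul_wall_val, smul_wall_val, wall_val, hr]
  group

end Pool.Agent.helper64.DC
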