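import Pool.Agent.helper53.DC.SpecA

set_option autoImplicit false

namespace Pool.Agent.helper64.DC

open Pool.Agent.helper53.DC

theorem A4 (hA3 : A3_stmt) : A4_stmt := by
  intro B W _ M cs g r x y
  have key : ∀ ω : List B, (cw cs).Sep (g • r) (g * x) (g * (x * cs.wordProd ω)) ↔
      (cw cs).Sep r x (x * cs.wordProd ω) := by
    intro ω
    induction ω using List.reverseRecOn with
    | nil =>
      rw [cs.wordProd_nil, mul_one]
      unfold WS.Sep
      tauto
    | append_singleton ω i ih =>
      have e1 : x * cs.wordProd (ω ++ [i]) = x * cs.wordProd ω * cs.simple i := by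
        rw [cs.wordProd_append, cs.wordProd_singleton, mul_assoc]
      rw [e1, ← mul_assoc g]
      have h1 := hA3 cs r (x * cs.wordProd ω) i
      have h2 := hA3 cs (g • r) (g * (x * cs.wordProd ω)) i
      have h3 : g • r = wall cs (g * (x * cs.wordProd ω)) i ↔ r = wall cs (x * cs.wordProd ω) i := by
        have e : wall cs (g * (x * cs.wordProd ω)) i = g • wall cs (x * cs.wordProd ω) i := by
          apply Subtype.ext
          rw [smul_wall_val, wall_val, wall_val]
          group
        rw [e]
        exact smul_left_cancel_iff g
      rw [h3, ← h1] at h2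
      unfold WS.Sep at *
      tauto
  obtain ⟨ω, -, he⟩ := cs.exists_isReduced (x⁻¹ * y)
  have h := key ω
  rw [← he, mul_inv_cancel_left] at h
  exact h

end Pool.Agent.helper64.DC
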