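import Pool.Agent.helper53.DC.SpecA

set_option autoImplicit false

namespace Pool.Agent.helper64.DC

open Pool.Agent.helper53.DC

theorem A5 (hA3 : A3_stmt) : A5_stmt := by
  intro B W _ M cs x y
  obtain ⟨ω, hω, he⟩ := cs.exists_isReduced (x⁻¹ * y)
  have hl : ω.length = dd cs x y := by
    unfold dd; rw [he]; exact hω.eq.symm
  let w : Fin ω.length → Wall cs := fun k => wall cs (x * cs.wordProd (ω.take k)) (ω[(k : ℕ)])
  have hw : ∀ k : Fin ω.length, x⁻¹ * (w k).1 * x = (cs.leftInvSeq ω)[(k : ℕ)]'(by
      rw [cs.length_leftInvSeq]; exact k.2) := by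
    intro k
    rw [cs.getElem_leftInvSeq ω (k : ℕ) k.2]
    show x⁻¹ * (x * cs.wordProd (ω.take k) * cs.simple (ω[(k : ℕ)]) * (x * cs.wordProd (ω.take k))⁻¹) * x = _
    group
  have hinj : Function.Injective w := by
    intro k k' h
    have h1 := hw k
    rw [h, hw k'] at h1
    have h2 := (List.Nodup.getElem_inj_iff hω.nodup_leftInvSeq).mp h1
    exact Fin.ext h2.symm
  have key : ∀ k : ℕ, k ≤ ω.length → ∀ r, (cw cs).Sep r x (x * cs.wordProd (ω.take k)) ↔
      ∃ j : Fin ω.length, (j : ℕ) < k ∧ r = w j := by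
    intro k
    induction k with
    | zero =>
      intro _ r
      constructor
      · intro h
        exfalso
        apply h
        simp
      · rintro ⟨j, hj, -⟩
        omega
    | succ k ih =>
      intro hk r
      have h1 := ih (by omega) r
      have h2 := hA3 cs r (x * cs.wordProd (ω.take k)) (ω[k])
      have h3 : x * cs.wordProd (ω.take (k + 1)) = x * cs.wordProd (ω.take k) * cs.simple (ω[k]) := by
        rw [List.take_succ_eq_append_getElem (by omega), cs.wordProd_append, cs.wordProd_singleton, mul_assoc]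
      have h4 : (∃ j : Fin ω.length, (j : ℕ) < k + 1 ∧ r = w j) ↔
          ((∃ j : Fin ω.length, (j : ℕ) < k ∧ r = w j) ∨ r = w ⟨k, by omega⟩) := by
        constructor
        · rintro ⟨j, hj, rfl⟩
          rcases Nat.lt_succ_iff_lt_or_eq.mp hj with h | h
          · exact Or.inl ⟨j, h, rfl⟩
          · right
            congr 1
            exact Fin.ext h
        · rintro (⟨j, hj, rfl⟩ | rfl)
          · exact ⟨j, by omega, rfl⟩
          · exact ⟨⟨k, by omega⟩, Nat.lt_succ_self k, rfl⟩
      have h5 : ¬ ((∃ j : Fin ω.length, (j : ℕ) < k ∧ r = w j) ∧ r = w ⟨k, by omega⟩) := by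
        rintro ⟨⟨j, hj, h6⟩, h7⟩
        rw [h6] at h7
        have := congrArg Fin.val (hinj h7)
        simp only at this
        omega
      rw [h3, h4, ← h1]
      rw [← h1] at h5
      have h6 : wall cs (x * cs.wordProd (ω.take k)) (ω[k]) = w ⟨k, by omega⟩ := rfl
      rw [h6] at h2
      rw [← h2] at h5 ⊢
      unfold WS.Sep at h5 ⊢
      tauto
  have hset : {r | (cw cs).Sep r x y} = Set.range w := by
    ext r
    have h1 := key ω.length le_rfl r
    rw [List.take_length, ← he, mul_inv_cancel_left] at h1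
    rw [Set.mem_ofPred_eq, h1]
    constructor
    · rintro ⟨j, -, h⟩
      exact ⟨j, h.symm⟩
    · rintro ⟨j, h⟩
      exact ⟨j, j.2, h.symm⟩
  rw [hset]
  refine ⟨Set.finite_range w, ?_⟩
  rw [← Set.image_univ, Set.ncard_image_of_injective _ hinj, Set.ncard_univ, Nat.card_eq_fintype_card,
    Fintype.card_fin, hl]

end Pool.Agent.helper64.DC
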