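import Pool.Agent.helper53.DC.SpecI

set_option autoImplicit false

namespace Pool.Agent.helper64.DC

open Pool.Agent.helper53.DC

variable {Z : Type} [Fintype Z]

theorem I4_kap_add (n : ℕ → LL Z) (i m : ℕ) (v : LL Z) :
    kap n (i + m) v = kap n i (kap (fun k => n (i + k)) m v) := by
  induction m generalizing v with
  | zero => rfl
  | succ m ih =>
    show kap n (i + m) (rf (n (i + m)) v) = _
    rw [ih]
    rfl

theorem I4_kap_left (n : ℕ → LL Z) (m : ℕ) (v : LL Z) :
    kap n (m + 1) v = rf (n 0) (kap (fun k => n (k + 1)) m v) := by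
  have h := I4_kap_add n 1 m v
  rw [Nat.add_comm 1 m] at h
  rw [h]
  have e : (fun k => n (1 + k)) = fun k => n (k + 1) := by
    funext k; rw [Nat.add_comm]
  rw [e]
  rfl

theorem I4_lf_rf (n v K : LL Z) : lf v (rf n K) = lf v K - 2 * lf n K * lf v n := by
  unfold rf
  rw [lf_sub_right, lf_smul_right]

theorem I4_first (a : ℝ) (ha : 0 < a) (m : ℕ) : ∀ (n : ℕ → LL Z),
    (∀ k < m, lf (n k) x0 = a) → (∀ p q, p < q → q < m → lf (n p) (n q) ≤ 0) →
    ∀ v : LL Z, (∀ k < m, lf v (n k) ≤ 0) → lf v x0 ≤ lf v (kap n m x0) := by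
  induction m with
  | zero => intro n _ _ v _; exact le_rfl
  | succ m ih =>
    intro n h1 h2 v hv
    rw [I4_kap_left, I4_lf_rf]
    have i1 := ih (fun k => n (k + 1)) (fun k hk => h1 (k + 1) (by omega))
      (fun p q hp hq => h2 (p + 1) (q + 1) (by omega) (by omega))
    have i2 := i1 v (fun k hk => hv (k + 1) (by omega))
    have i3 := i1 (n 0) (fun k hk => h2 0 (k + 1) (by omega) (by omega))
    rw [h1 0 (by omega)] at i3
    have i4 := hv 0 (by omega)
    nlinarith

theorem I4_second (a : ℝ) (ha : 0 < a) (m : ℕ) : ∀ (n : ℕ → LL Z),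
    (∀ k ≤ m, lf (n k) x0 = a) → (∀ p q, p < q → q ≤ m → lf (n p) (n q) ≤ 0) →
    (∀ v : LL Z, (∀ k ≤ m, lf v (n k) ≤ 0) → lf v (kap n m (n m)) ≤ 0) ∧
      a ≤ lf x0 (kap n m (n m)) := by
  induction m with
  | zero =>
    intro n h1 _
    refine ⟨fun v hv => hv 0 le_rfl, ?_⟩
    show a ≤ lf x0 (n 0)
    rw [lf_comm, h1 0 le_rfl]
  | succ m ih =>
    intro n h1 h2
    have i1 := ih (fun k => n (k + 1)) (fun k hk => h1 (k + 1) (by omega))
      (fun p q hp hq => h2 (p + 1) (q + 1) (by omega) (by omega))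
    have i3 := i1.1 (n 0) (fun k hk => h2 0 (k + 1) (by omega) (by omega))
    constructor
    · intro v hv
      rw [I4_kap_left, I4_lf_rf]
      have i2 := i1.1 v (fun k hk => hv (k + 1) (by omega))
      have i4 := hv 0 (by omega)

      nlinarith
    · rw [I4_kap_left, I4_lf_rf]
      have i2 := i1.2
      have i4 : lf x0 (n 0) = a := by rw [lf_comm]; exact h1 0 (by omega)
      rw [i4]

      nlinarith

theorem I4 : I4_stmt := by
  intro Z _ n a ha N hN
  constructor
  · intro i j hij hj h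
    obtain ⟨m, rfl⟩ : ∃ m, j = i + (m + 1) := ⟨j - i - 1, by omega⟩
    rw [I4_kap_add, lf_kap (fun k hk => (hN k (by omega)).1), I4_kap_left, I4_lf_rf]
    have e1 := (hN i (by omega)).1
    have h3 := I4_first a ha m (fun k => n (i + (k + 1))) (fun k hk => (hN _ (by omega)).2)
      (fun p q hp hq => h _ _ (by omega) (by omega) (by omega)) (n i)
      (fun k hk => h _ _ le_rfl (by omega) (by omega))
    rw [(hN i (by omega)).2] at h3
    simp only [Nat.add_zero]
    rw [e1]
    linarith
  · intro i j hij hi h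
    obtain ⟨m, rfl⟩ : ∃ m, i = j + m := ⟨i - j, by omega⟩
    rw [I4_kap_add, lf_kap (fun k hk => (hN k (by omega)).1), lf_comm]
    exact (I4_second a ha m (fun k => n (j + k)) (fun k hk => (hN _ (by omega)).2)
      (fun p q hp hq => h _ _ (by omega) (by omega) (by omega))).2

end Pool.Agent.helper64.DC
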