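import Pool.Agent.helper53.DC.SpecI

set_option autoImplicit false

namespace Pool.Agent.helper64.DC

open Pool.Agent.helper53.DC

variable {Z : Type} [Fintype Z]

/-- coordinates -/
noncomputable def I8_phi (e : Fin (Fintype.card Z) ≃ Z) :
    LL Z ≃ₗ[ℝ] (Fin (Fintype.card Z + 1) → ℝ) where
  toFun v := Fin.cons v.1 (fun i => v.2 (e i))
  invFun c := (c 0, fun z => c (Fin.succ (e.symm z)))
  map_add' v w := by
    ext i
    refine Fin.cases ?_ (fun j => ?_) i <;> simp
  map_smul' c v := by
    ext i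
    refine Fin.cases ?_ (fun j => ?_) i <;> simp
  left_inv v := by
    refine Prod.ext ?_ ?_
    · simp
    · funext z
      simp
  right_inv c := by
    ext i
    refine Fin.cases ?_ (fun j => ?_) i <;> simp

theorem I8_lf (e : Fin (Fintype.card Z) ≃ Z) (v w : LL Z) :
    lf v w = ∑ k, I8_phi e v k * (if k = 0 then (-1 : ℝ) else 1) * I8_phi e w k := by
  rw [Fin.sum_univ_succ]
  unfold lf
  congr 1
  · show -(v.1 * w.1) = v.1 * (if (0 : Fin (Fintype.card Z + 1)) = 0 then (-1 : ℝ) else 1) * w.1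
    rw [if_pos rfl]; ring
  · rw [← e.sum_comp]
    refine Finset.sum_congr rfl fun i _ => ?_
    show v.2 (e i) * w.2 (e i) = v.2 (e i) * (if i.succ = 0 then (-1 : ℝ) else 1) * w.2 (e i)
    rw [if_neg (Fin.succ_ne_zero i)]; ring

theorem I8 : I8_stmt := by
  intro W _ Z _ ρ hρ hpos hgt hfin
  let e : Fin (Fintype.card Z) ≃ Z := (Fintype.equivFin Z).symm
  let b : Module.Basis (Fin (Fintype.card Z + 1)) ℝ (LL Z) := Module.Basis.ofEquivFun (I8_phi e)
  let ρ' : W →* Matrix (Fin (Fintype.card Z + 1)) (Fin (Fintype.card Z + 1)) ℝ :=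
    ((LinearMap.toMatrixAlgEquiv b : Module.End ℝ (LL Z) ≃ₐ[ℝ] _) : Module.End ℝ (LL Z) →* _).comp ρ
  have hρ' : ∀ g i j, ρ' g i j = I8_phi e (ρ g (b j)) i := by
    intro g i j
    show (LinearMap.toMatrixAlgEquiv b (ρ g)) i j = _
    rw [LinearMap.toMatrixAlgEquiv_apply]
    rfl
  have hb0 : b 0 = x0 := by
    apply (I8_phi e).injective
    have h1 : I8_phi e (b 0) = Pi.single 0 1 := by
      funext j
      rw [Pi.single_apply]
      have h := b.equivFun_self 0 j
      simp only [eq_comm (a := j)]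
      exact h
    rw [h1]
    ext i
    refine Fin.cases ?_ (fun j => ?_) i
    · simp [I8_phi, x0]
    · simp [I8_phi, x0]
  have h00 : ∀ g, ρ' g 0 0 = (ρ g x0).1 := by
    intro g
    rw [hρ', hb0]
    rfl
  refine ⟨Fintype.card Z, ρ', ?_, ?_, ?_, ?_⟩
  · rw [injective_iff_map_eq_one]
    intro g hg
    by_contra hne
    have h1 := hgt g hne
    rw [← h00, hg, Matrix.one_apply_eq] at h1
    exact lt_irrefl _ h1
  · intro g
    ext i j
    have h1 : ((ρ' g).transpose
          * Matrix.diagonal (fun i : Fin (Fintype.card Z + 1) => if i = 0 then (-1 : ℝ) else 1) * ρ' g) i j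
        = lf (ρ g (b i)) (ρ g (b j)) := by
      rw [I8_lf e, Matrix.mul_apply]
      refine Finset.sum_congr rfl fun k _ => ?_
      rw [Matrix.mul_diagonal, Matrix.transpose_apply, hρ', hρ']
    rw [h1, hρ, I8_lf e]
    have h2 : ∀ i, I8_phi e (b i) = Pi.single i 1 := by
      intro i
      funext j
      rw [Pi.single_apply]
      have h := b.equivFun_self i j
      simp only [eq_comm (a := j)]
      exact h
    rw [h2, h2, Finset.sum_eq_single i]
    · rw [Pi.single_eq_same, Matrix.diagonal_apply, one_mul, Pi.single_apply]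
      by_cases hij : i = j
      · subst hij; simp
      · rw [if_neg hij, if_neg hij, mul_zero]
    · intro k _ hk
      rw [Pi.single_eq_of_ne hk, zero_mul, zero_mul]
    · intro h
      exact absurd (Finset.mem_univ i) h
  · intro g
    rw [h00]
    exact hpos g
  · rw [discreteTopology_iff_isOpen_singleton]
    rintro ⟨A, g, rfl⟩
    let U : Set (Set.range ρ') := {B | B.1 0 0 < ρ' g 0 0 + 1}
    have hU : IsOpen U := by
      refine isOpen_lt ?_ continuous_const
      exact (continuous_apply_apply (0 : Fin (Fintype.card Z + 1)) (0 : Fin (Fintype.card Z + 1))).comp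
        continuous_subtype_val
    have hUf : U.Finite := by
      refine ((hfin (ρ' g 0 0 + 1)).image (fun h => (⟨ρ' h, h, rfl⟩ : Set.range ρ'))).subset ?_
      rintro ⟨B, h, rfl⟩ hB
      refine ⟨h, ?_, rfl⟩
      show (ρ h x0).1 ≤ _
      rw [← h00]
      exact le_of_lt hB
    have hg : (⟨ρ' g, g, rfl⟩ : Set.range ρ') ∈ U := by
      show ρ' g 0 0 < ρ' g 0 0 + 1
      linarith
    have hcl : IsClosed (U \ {(⟨ρ' g, g, rfl⟩ : Set.range ρ')}) := (hUf.subset Set.sdiff_subset).isClosed
    have hS : ({(⟨ρ' g, g, rfl⟩ : Set.range ρ')} : Set (Set.range ρ')) =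
        U ∩ (U \ {(⟨ρ' g, g, rfl⟩ : Set.range ρ')})ᶜ := by
      ext x
      constructor
      · intro hx
        rw [Set.mem_singleton_iff] at hx
        subst hx
        exact ⟨hg, fun h => h.2 rfl⟩
      · rintro ⟨h1, h2⟩
        by_contra hx
        exact h2 ⟨h1, hx⟩
    rw [hS]
    exact hU.inter hcl.isOpen_compl

end Pool.Agent.helper64.DC
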