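import Pool.Agent.helper58.DC.Spec1

/-!
# dq:IF. Facts on `IrrOn`
-/

set_option autoImplicit false

namespace Pool.Agent.helper64.DC

open Pool.Agent.helper58.DC

theorem IF (hIRF : IRF_stmt) (hIRT : IRT_stmt) : IF_stmt := by
  intro G _ _ H
  obtain ⟨hfin, hprop⟩ := hIRF H
  refine ⟨?_, ?_⟩
  · have hinj : Set.InjOn (fun (ψ : G → ℂ) (h : H) => ψ (h : G)) (IrrOn H) := by
      intro ψ hψ φ hφ h
      funext g
      by_cases hg : g ∈ H
      · exact congrFun h ⟨g, hg⟩
      · rw [hψ.1 g hg, hφ.1 g hg]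
    refine Set.Finite.of_finite_image (hfin.subset ?_) hinj
    rintro _ ⟨ψ, hψ, rfl⟩
    exact hψ.2
  · intro ψ hψ
    obtain ⟨⟨n, hn, hn1⟩, hconj, -⟩ := hprop _ hψ.2
    refine ⟨⟨n, hn, hn1⟩, ?_, ?_⟩
    · intro h hh g
      by_cases hg : g ∈ H
      · exact hconj ⟨g, hg⟩ ⟨h, hh⟩
      · have hg' : h * g * h⁻¹ ∉ H := by
          intro h1
          apply hg
          have h2 : h⁻¹ * (h * g * h⁻¹) * h ∈ H := H.mul_mem (H.mul_mem (H.inv_mem hh) h1) hh
          have h3 : h⁻¹ * (h * g * h⁻¹) * h = g := by group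
          rwa [h3] at h2
        rw [hψ.1 _ hg', hψ.1 _ hg]
    · intro α
      refine ⟨?_, ?_⟩
      · intro g hg
        have h1 : α⁻¹ g ∉ H := by
          intro h2
          apply hg
          refine ⟨α⁻¹ g, h2, ?_⟩
          exact MulAut.apply_inv_self G α g
        exact hψ.1 _ h1
      · have h1 := hIRT (H.map α.toMonoidHom) H (MulEquiv.subgroupMap α H).symm _ hψ.2
        have h2 : (fun h : (H.map α.toMonoidHom : Subgroup G) => funMap α ψ (h : G)) =
            fun h => (fun h : H => ψ (h : G)) ((MulEquiv.subgroupMap α H).symm h) := by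
          funext h
          show ψ (α⁻¹ (h : G)) = ψ (((MulEquiv.subgroupMap α H).symm h : H) : G)
          have h3 : α⁻¹ (h : G) = (((MulEquiv.subgroupMap α H).symm h : H) : G) := by
            obtain ⟨k, rfl⟩ := (MulEquiv.subgroupMap α H).surjective h
            rw [MulEquiv.symm_apply_apply]
            show α⁻¹ (α (k : G)) = (k : G)
            exact MulAut.inv_apply_self G α (k : G)
          rw [h3]
        rw [h2]
        exact h1

end Pool.Agent.helper64.DC
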